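import Mathlib
import Pool.Agent.Y973.TC.Main

/-!
# Integrable systems of geometric type with prescribed torsion and curvature

`Supp3 B a`, `Supp4 B c`: the arrays `a^i_{jk}`, `c^i_{jkm}` vanish unless the upper index `i` is
outside `B` and all lower indices are in `B`.
-/

set_option autoImplicit false

open MvPolynomial
open Pool.Agent.Y973.TC
open Pool.Agent.Results.MP_3301e6_mp.TorsionCurvature

namespace Pool.Agent.Results.MP_3301e6_mp.PrescribedTorsionCurvature

/-- (1) For every `N` and every set `B` of components, every system of the form of the problem with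
`α^i_{jk}(u) = a^i_{jk} + c^i_{jkm} u^m`, where `a`, `c` and the constant `β = b` vanish unless
`i ∉ B` and all lower indices are in `B`, is integrable.
(2) The torsion and the curvature of these systems are arbitrary: for every affine
`T^i_{jk}(u) = τ^i_{jk} + σ^i_{jkm} u^m` antisymmetric in `j, k`, every constant `R^i_{jkm} = ρ^i_{jkm}`
antisymmetric in `k, m`, satisfying the first Bianchi identity, and every constant `β = b` (all of
them vanishing unless `i ∉ B` and the lower indices are in `B`) there is a connection `α` with
torsion `T` and curvature `R` such that the system with `α`, `β`, and also the one with the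
transposed connection `α^i_{kj}` and `β`, are integrable.
(3) For every `N ≥ 3` there is an integrable system with `N` components (and `β = 0`) whose torsion
and whose curvature, in both conventions for the connection, vanish nowhere. -/
theorem result :
    (∀ (N : ℕ) (B : Set (Fin N)) (a : Fin N → Fin N → Fin N → ℝ)
      (c b : Fin N → Fin N → Fin N → Fin N → ℝ), Supp3 B a → Supp4 B c → Supp4 B b →
      Integrable (system (fun i j k => C (a i j k) + ∑ m, C (c i j k m) * X m)
        (fun i j k m => C (b i j k m)))) ∧
    (∀ (N : ℕ) (B : Set (Fin N)) (τ : Fin N → Fin N → Fin N → ℝ)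
      (σ ρ b : Fin N → Fin N → Fin N → Fin N → ℝ),
      Supp3 B τ → Supp4 B σ → Supp4 B ρ → Supp4 B b →
      (∀ i j k, τ i j k = - τ i k j) → (∀ i j k m, σ i j k m = - σ i k j m) →
      (∀ i j k m, ρ i j k m = - ρ i j m k) →
      (∀ i j k m, ρ i j k m + ρ i k m j + ρ i m j k
        + (σ i j k m + σ i k m j + σ i m j k) = 0) →
      ∃ α : Fin N → Fin N → Fin N → MvPolynomial (Fin N) ℝ,
        Integrable (system α (fun i j k m => C (b i j k m))) ∧
        Integrable (system (fun i j k => α i k j) (fun i j k m => C (b i j k m))) ∧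
        (∀ i j k, torsion α i j k = C (τ i j k) + ∑ m, C (σ i j k m) * X m) ∧
        ∀ i j k m, curvature α i j k m = C (ρ i j k m)) ∧
    (∀ N : ℕ, 3 ≤ N → ∃ α : Fin N → Fin N → Fin N → MvPolynomial (Fin N) ℝ,
      Integrable (system α (fun _ _ _ _ => 0)) ∧
      ∃ i, (∃ j k, ∀ x, eval x (torsion α i j k) ≠ 0) ∧
        (∃ j k l, ∀ x, eval x (curvature α i j k l) ≠ 0) ∧
        (∃ j k l, ∀ x, eval x (curvature (fun i j k => α i k j) i j k l) ≠ 0)) :=
  ⟨fun _ _ _ _ b ha hc hb => integrable_aff ha hc b hb,
    fun _ B τ σ ρ b hτ hσ hρ hb aτ aσ aρ bi => prescribed B τ σ ρ b hτ hσ hρ hb aτ aσ aρ bi,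
    fun N hN => all_dimensions N hN⟩

end Pool.Agent.Results.MP_3301e6_mp.PrescribedTorsionCurvature
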